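import Pool.Agent.Helper320.NoMin
import Pool.Agent.Helper320.Refl

set_option autoImplicit false

namespace Pool.Agent.H320.Dp

open Pool.Agent.Helper320.Refl Pool.Agent.Helper320.NoMin

/-- The group generated by the three reflections and `c`. -/
def Gr (c : Equiv.Perm Circle) : Subgroup (Equiv.Perm Circle) :=
  Subgroup.closure (insert c (Set.range R))

instance (c : Equiv.Perm Circle) : Group.FG (Gr c) := by
  unfold Gr
  have : Finite (insert c (Set.range R) : Set (Equiv.Perm Circle)) :=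
    ((Set.finite_range R).insert c).to_subtype
  infer_instance

lemma Wg_le (c : Equiv.Perm Circle) : Wg ≤ Gr c := by
  unfold Wg Gr
  exact Subgroup.closure_mono (Set.subset_insert _ _)

lemma R_mem_Wg (k : Fin 3) : R k ∈ Wg := Subgroup.subset_closure ⟨k, rfl⟩

lemma c_mem (c : Equiv.Perm Circle) : c ∈ Gr c := Subgroup.subset_closure (Set.mem_insert _ _)

section
variable {c : Equiv.Perm Circle} (hcV : ∀ z, z ∉ V → c z = z)
include hcV

lemma cinv_fix {z : Circle} (hz : z ∉ V) : c⁻¹ z = z := by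
  rw [Equiv.Perm.inv_eq_iff_eq, hcV z hz]

lemma comm_Wg {w : Equiv.Perm Circle} (hw : w ∈ Wg) : Commute c (w * c * w⁻¹) := by
  by_cases h1 : w = 1
  · subst h1
    simp
  · apply Equiv.Perm.Disjoint.commute
    intro x
    by_cases hx : x ∈ V
    · right
      have h2 : w⁻¹ x ∉ V := Wg_V (Wg.inv_mem hw) (by simpa using h1) hx
      show w (c (w⁻¹ x)) = x
      rw [hcV _ h2]
      simp
    · left
      exact hcV x hx

lemma conj_eq {h : Equiv.Perm Circle} (hh : h ∈ Gr c) :
    ∃ w ∈ Wg, h * c * h⁻¹ = w * c * w⁻¹ := by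
  unfold Gr at hh
  have key : ∀ w ∈ Wg, ∀ e : Equiv.Perm Circle, Commute e c → Commute e (w * c * w⁻¹) →
      e * (w * c * w⁻¹) * e⁻¹ = w * c * w⁻¹ := by
    intro w _ e _ h
    rw [h.eq]
    group
  induction hh using Subgroup.closure_induction_left with
  | one => exact ⟨1, Wg.one_mem, rfl⟩
  | mul_left x hx y hy ih =>
    obtain ⟨w, hw, hyw⟩ := ih
    have e1 : x * y * c * (x * y)⁻¹ = x * (y * c * y⁻¹) * x⁻¹ := by group
    rw [e1, hyw]
    rcases hx with rfl | ⟨k, rfl⟩
    · refine ⟨w, hw, ?_⟩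
      rw [(comm_Wg hcV hw).eq]
      group
    · exact ⟨R k * w, Wg.mul_mem (R_mem_Wg k) hw, by group⟩
  | inv_mul_cancel x hx y hy ih =>
    obtain ⟨w, hw, hyw⟩ := ih
    have e1 : x⁻¹ * y * c * (x⁻¹ * y)⁻¹ = x⁻¹ * (y * c * y⁻¹) * x⁻¹⁻¹ := by group
    rw [e1, hyw]
    rcases hx with rfl | ⟨k, rfl⟩
    · refine ⟨w, hw, ?_⟩
      rw [(comm_Wg hcV hw).inv_left.eq]
      group
    · exact ⟨(R k)⁻¹ * w, Wg.mul_mem (Wg.inv_mem (R_mem_Wg k)) hw, by group⟩

/-- The base point. -/
lemma orbit_avoid {x₀ : Circle} (hx : x₀ ∉ V) (hb : ∀ j, R j x₀ ∈ A j)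
    {h : Equiv.Perm Circle} (hh : h ∈ Gr c) : h x₀ ∉ V := by
  have hW : ∀ w ∈ Wg, w x₀ ∉ V := by
    intro w hw
    obtain ⟨l, hl, rfl⟩ := exists_word hw
    rcases l with _ | ⟨i, l⟩
    · simpa using hx
    · intro h
      exact V_not_A h i (word_mem l i hl x₀ hb)
  have : ∃ w ∈ Wg, h x₀ = w x₀ := by
    unfold Gr at hh
    induction hh using Subgroup.closure_induction_left with
    | one => exact ⟨1, Wg.one_mem, rfl⟩
    | mul_left x hx y hy ih =>
      obtain ⟨w, hw, hyw⟩ := ih
      rcases hx with rfl | ⟨k, rfl⟩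
      · exact ⟨w, hw, by rw [Equiv.Perm.mul_apply, hyw, hcV _ (hW w hw)]⟩
      · exact ⟨R k * w, Wg.mul_mem (R_mem_Wg k) hw, by
          rw [Equiv.Perm.mul_apply, Equiv.Perm.mul_apply, hyw]⟩
    | inv_mul_cancel x hx y hy ih =>
      obtain ⟨w, hw, hyw⟩ := ih
      rcases hx with rfl | ⟨k, rfl⟩
      · exact ⟨w, hw, by rw [Equiv.Perm.mul_apply, hyw, cinv_fix hcV (hW w hw)]⟩
      · exact ⟨(R k)⁻¹ * w, Wg.mul_mem (Wg.inv_mem (R_mem_Wg k)) hw, by
          rw [Equiv.Perm.mul_apply, Equiv.Perm.mul_apply, hyw]⟩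
  obtain ⟨w, hw, e⟩ := this
  rw [e]
  exact hW w hw

end

lemma smooth_mem {c : Equiv.Perm Circle} (h1 : SmL c) (h2 : SmL (c⁻¹ : Equiv.Perm Circle))
    {h : Equiv.Perm Circle} (hh : h ∈ Gr c) : SmL h := by
  have hRp : ∀ k, SmL (R k) := by
    intro k
    have hl : ∀ a : ℝ, SmL (fun z => Circle.exp a * z) := fun a =>
      ⟨fun t => a + t, fun n => contDiff_const.add contDiff_id, fun t => (Circle.exp_add a t).symm⟩
    have := ((hl (ang k)).comp r0_smooth).comp (hl (-ang k))
    have e : (R k : Circle → Circle) =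
        (((fun z => Circle.exp (ang k) * z) ∘ r0) ∘ (fun z => Circle.exp (-ang k) * z)) := by
      funext z
      simp only [Function.comp_apply, Circle.exp_neg]
      rfl
    rw [e]
    exact this
  have : SmL h ∧ SmL (h⁻¹ : Equiv.Perm Circle) := by
    unfold Gr at hh
    induction hh using Subgroup.closure_induction with
    | mem x hx =>
      rcases hx with rfl | ⟨k, rfl⟩
      · exact ⟨h1, h2⟩
      · exact ⟨hRp k, by rw [R_inv]; exact hRp k⟩
    | one => exact ⟨SmL_id, by rw [inv_one]; exact SmL_id⟩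
    | mul x y hx hy ihx ihy =>
      refine ⟨ihx.1.comp ihy.1, ?_⟩
      rw [mul_inv_rev]
      exact ihy.2.comp ihx.2
    | inv x hx ih => exact ⟨ih.2, by rw [inv_inv]; exact ih.1⟩
  exact this.1

lemma SmL.contDiff {f : Circle → Circle} (hf : SmL f) (k : ℕ) :
    ContDiff ℝ (k : WithTop ℕ∞) (fun θ : ℝ => (f (Circle.exp θ) : ℂ)) := by
  obtain ⟨F, hF, hF2⟩ := hf
  have : (fun θ : ℝ => (f (Circle.exp θ) : ℂ)) = fun θ => Complex.exp ((F θ : ℂ) * Complex.I) := by
    funext θ
    rw [hF2, Circle.coe_exp]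
  rw [this]
  have h1 : ContDiff ℝ (k : WithTop ℕ∞) (fun θ => (F θ : ℂ)) :=
    Complex.ofRealCLM.contDiff.comp (hF k)
  exact (h1.mul contDiff_const).cexp

lemma cont_of_contDiff {f : Circle → Circle}
    (hf : Continuous (fun θ : ℝ => (f (Circle.exp θ) : ℂ))) : Continuous f := by
  have h1 : Continuous (fun θ : ℝ => f (Circle.exp θ)) := continuous_induced_rng.2 hf
  exact (Circle.isCoveringMap_exp.isQuotientMap Circle.exp_surjective).continuous_iff.2 h1

lemma SmL.cont {f : Circle → Circle} (hf : SmL f) : Continuous f := by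
  have := (SmL.contDiff hf 0).continuous
  exact cont_of_contDiff this


/-- Existence of minimal sets. -/
lemma exists_minimal {G : Type} (Φ : G → Circle → Circle) {Y : Set Circle} (hY : IsClosed Y)
    (hne : Y.Nonempty) (hinv : ∀ g, Φ g '' Y ⊆ Y) :
    ∃ K : Set Circle, K ⊆ Y ∧ IsClosed K ∧ K.Nonempty ∧ (∀ g, Φ g '' K ⊆ K) ∧
      (∀ L : Set Circle, L ⊆ K → IsClosed L → L.Nonempty → (∀ g, Φ g '' L ⊆ L) → L = K) := by
  let S : Set (Set Circle) := {L | IsClosed L ∧ L.Nonempty ∧ ∀ g, Φ g '' L ⊆ L}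
  obtain ⟨K, hKY, hK⟩ := zorn_superset_nonempty S (by
    intro C hCS hchain hCne
    refine ⟨⋂₀ C, ⟨isClosed_sInter fun L hL => (hCS hL).1, ?_, ?_⟩, fun s hs =>
      Set.sInter_subset_of_mem hs⟩
    · have : Nonempty C := hCne.to_subtype
      refine IsCompact.nonempty_sInter_of_directed_nonempty_isCompact_isClosed ?_
        (fun U hU => (hCS hU).2.1) (fun U hU => (hCS hU).1.isCompact) (fun U hU => (hCS hU).1)
      intro a ha b hb
      rcases hchain.total ha hb with h | h
      · exact ⟨a, ha, subset_rfl, h⟩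
      · exact ⟨b, hb, h, subset_rfl⟩
    · intro g x hx
      obtain ⟨y, hy, rfl⟩ := hx
      intro L hL
      exact (hCS hL).2.2 g ⟨y, hy L hL, rfl⟩) Y ⟨hY, hne, hinv⟩
  refine ⟨K, hKY, hK.prop.1, hK.prop.2.1, hK.prop.2.2, ?_⟩
  intro L hLK hLc hLne hLi
  exact hLK.antisymm (hK.le_of_le ⟨hLc, hLne, hLi⟩ hLK)

/-- No finite nonempty set is invariant under the three reflections. -/
lemma no_finite {K : Set Circle} (hK : K.Finite) (hne : K.Nonempty)
    (hinv : ∀ k, ∀ x ∈ K, R k x ∈ K) : False := by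
  classical
  set F := hK.toFinset with hF
  have hmem : ∀ x, x ∈ F ↔ x ∈ K := fun x => hK.mem_toFinset
  have h1 : ∀ k, (F.filter (fun x => x ∉ A k)).card ≤ (F.filter (fun x => x ∈ A k)).card := by
    intro k
    apply Finset.card_le_card_of_injOn (R k)
    · intro x hx
      have hx' := Finset.mem_filter.1 hx
      exact Finset.mem_filter.2 ⟨(hmem _).2 (hinv k x ((hmem x).1 hx'.1)), R_mem hx'.2⟩
    · exact (R k).injective.injOn
  have h2 : ∀ k, (F.filter (fun x => x ∈ A k)).card + (F.filter (fun x => x ∉ A k)).card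
      = F.card := fun k => Finset.card_filter_add_card_filter_not _
  have h3 : (F.filter (fun x => x ∈ A 0)).card + (F.filter (fun x => x ∈ A 1)).card +
      (F.filter (fun x => x ∈ A 2)).card ≤ F.card := by
    rw [← Finset.card_union_of_disjoint, ← Finset.card_union_of_disjoint]
    · apply Finset.card_le_card
      intro x hx
      simp only [Finset.mem_union, Finset.mem_filter] at hx
      tauto
    · rw [Finset.disjoint_left]
      intro x hx hx2
      simp only [Finset.mem_union, Finset.mem_filter] at hx hx2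
      rcases hx with hx | hx
      · exact A_disj (by decide) hx.2 hx2.2
      · exact A_disj (by decide) hx.2 hx2.2
    · rw [Finset.disjoint_left]
      intro x hx hx2
      simp only [Finset.mem_filter] at hx hx2
      exact A_disj (by decide) hx.2 hx2.2
  have h4 : 0 < F.card := by
    obtain ⟨x, hx⟩ := hne
    exact Finset.card_pos.2 ⟨x, (hmem x).2 hx⟩
  have a0 := h1 0
  have a1 := h1 1
  have a2 := h1 2
  have b0 := h2 0
  have b1 := h2 1
  have b2 := h2 2
  omega

lemma pi_mem_V : Circle.exp Real.pi ∈ V := by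
  show ((Circle.exp Real.pi : Circle) : ℂ).re < -99/100
  rw [exp_re, Real.cos_pi]
  norm_num

lemma isOpen_V : IsOpen V := by
  have : Continuous (fun z : Circle => (z : ℂ).re) :=
    Complex.continuous_re.comp continuous_subtype_val
  exact isOpen_lt this continuous_const

/-- the base point `exp(i π/3)`. -/
lemma base_not_V : Circle.exp (Real.pi / 3) ∉ V := by
  intro h
  have h' : ((Circle.exp (Real.pi / 3) : Circle) : ℂ).re < -99/100 := h
  rw [exp_re, Real.cos_pi_div_three] at h'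
  norm_num at h'

lemma base_not_A (k : Fin 3) : Circle.exp (Real.pi / 3) ∉ A k := by
  intro h
  have h' : 2/3 ≤ (((u k)⁻¹ * Circle.exp (Real.pi / 3) : Circle) : ℂ).re := h
  have e : (u k)⁻¹ * Circle.exp (Real.pi / 3) = Circle.exp (Real.pi / 3 - ang k) := by
    rw [Circle.exp_sub, div_eq_mul_inv, mul_comm]
    rfl
  rw [e, exp_re] at h'
  fin_cases k
  · have : Real.cos (Real.pi / 3 - 0) = 1/2 := by rw [sub_zero, Real.cos_pi_div_three]
    have h2 : 2/3 ≤ Real.cos (Real.pi / 3 - 0) := h'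
    rw [this] at h2
    norm_num at h2
  · have : Real.cos (Real.pi / 3 - 2 * Real.pi / 3) = 1/2 := by
      have : Real.pi / 3 - 2 * Real.pi / 3 = -(Real.pi / 3) := by ring
      rw [this, Real.cos_neg, Real.cos_pi_div_three]
    have h2 : 2/3 ≤ Real.cos (Real.pi / 3 - 2 * Real.pi / 3) := h'
    rw [this] at h2
    norm_num at h2
  · have : Real.cos (Real.pi / 3 - -(2 * Real.pi / 3)) = -1 := by
      have : Real.pi / 3 - -(2 * Real.pi / 3) = Real.pi := by ring
      rw [this, Real.cos_pi]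
    have h2 : 2/3 ≤ Real.cos (Real.pi / 3 - -(2 * Real.pi / 3)) := h'
    rw [this] at h2
    norm_num at h2


end Pool.Agent.H320.Dp
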