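import Pool.Agent.H320.Dp.Grp

set_option autoImplicit false

namespace Pool.Agent.H320.Dp

open Filter Topology

lemma circle_td {K : Set Circle} (hne : K ≠ Set.univ) (hint : interior K = ∅) :
    IsTotallyDisconnected K := by
  obtain ⟨p, hp⟩ := (Set.ne_univ_iff_exists_notMem K).1 hne
  -- the argument, cut at `p`
  set w : Circle := Circle.exp Real.pi * p⁻¹ with hw
  set f : Circle → ℝ := fun z => Complex.arg ((w * z : Circle) : ℂ) with hf
  have hinj : Function.Injective f := fun z z' h => by
    have := Circle.injective_arg h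
    exact mul_left_cancel this
  have hcont : ContinuousOn f {p}ᶜ := by
    intro z hz
    apply ContinuousAt.continuousWithinAt
    have h1 : ((w * z : Circle) : ℂ) ∈ Complex.slitPlane := by
      rw [Complex.mem_slitPlane_iff_arg]
      refine ⟨fun h => hz ?_, Circle.coe_ne_zero _⟩
      have h2 : Complex.arg ((Circle.exp Real.pi : Circle) : ℂ) = Real.pi :=
        Circle.arg_exp (by linarith [Real.pi_pos]) le_rfl
      have h3 : w * z = Circle.exp Real.pi := Circle.injective_arg (h.trans h2.symm)
      rw [hw, mul_assoc] at h3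
      have h4 : p⁻¹ * z = 1 := mul_left_cancel (h3.trans (mul_one _).symm)
      exact (inv_mul_eq_one.1 h4).symm
    have h5 : Continuous fun z : Circle => ((w * z : Circle) : ℂ) :=
      continuous_subtype_val.comp (continuous_const.mul continuous_id)
    exact ContinuousAt.comp (f := fun z : Circle => ((w * z : Circle) : ℂ))
      (Complex.continuousAt_arg h1) h5.continuousAt
  intro S hSK hS x hx y hy
  by_contra hxy
  have hSp : S ⊆ {p}ᶜ := fun z hz h => hp (by
    have : z = p := h
    rw [← this]; exact hSK hz)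
  have himg : IsPreconnected (f '' S) := hS.image f (hcont.mono hSp)
  have key : ∀ a ∈ S, ∀ b ∈ S, f a < f b → False := by
    intro a ha b hb hab
    have hIcc : Set.Icc (f a) (f b) ⊆ f '' S := himg.Icc_subset ⟨a, ha, rfl⟩ ⟨b, hb, rfl⟩
    have hU : IsOpen ({p}ᶜ ∩ f ⁻¹' Set.Ioo (f a) (f b)) :=
      hcont.isOpen_inter_preimage isOpen_compl_singleton isOpen_Ioo
    have hUK : {p}ᶜ ∩ f ⁻¹' Set.Ioo (f a) (f b) ⊆ K := by
      rintro z ⟨-, hz⟩
      obtain ⟨s, hs, hsz⟩ := hIcc (Set.Ioo_subset_Icc_self hz)
      rw [← hinj hsz]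
      exact hSK hs
    have hsub := interior_maximal hUK hU
    rw [hint] at hsub
    obtain ⟨s, hs, hs2⟩ := hIcc (show (f a + f b) / 2 ∈ Set.Icc (f a) (f b) from
      ⟨by linarith, by linarith⟩)
    exact hsub ⟨hSp hs, by
      show f s ∈ Set.Ioo (f a) (f b)
      rw [hs2]
      exact ⟨by linarith, by linarith⟩⟩
  rcases lt_trichotomy (f x) (f y) with h | h | h
  · exact key x hx y hy h
  · exact hxy (hinj h)
  · exact key y hy x hx h

/-- An infinite minimal set that is not the whole circle is a Cantor set. -/
lemma cantor_of_minimal {G : Type} [Group G] (Φ : G → Circle → Circle) (h1 : Φ 1 = id)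
    (hmul : ∀ g h, Φ (g * h) = Φ g ∘ Φ h) (hc : ∀ g, Continuous (Φ g)) {K : Set Circle}
    (hKc : IsClosed K) (hKn : K.Nonempty) (hinv : ∀ g, Φ g '' K ⊆ K)
    (hmin : ∀ L : Set Circle, L ⊆ K → IsClosed L → L.Nonempty → (∀ g, Φ g '' L ⊆ L) → L = K)
    (hinf : K.Infinite) (hne : K ≠ Set.univ) : Perfect K ∧ IsTotallyDisconnected K := by
  have hl : ∀ g x, Φ g⁻¹ (Φ g x) = x := fun g x => by
    have := congrFun (hmul g⁻¹ g) x
    rw [inv_mul_cancel, h1] at this
    exact this.symm
  have hinj : ∀ g, Function.Injective (Φ g) := fun g x y h => by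
    rw [← hl g x, ← hl g y, h]
  constructor
  · have hL : derivedSet K = K := by
      apply hmin
      · exact isClosed_iff_derivedSet_subset K |>.1 hKc
      · exact isClosed_derivedSet K
      · obtain ⟨x, -, hx⟩ := hinf.exists_accPt_of_subset_isCompact hKc.isCompact subset_rfl
        exact ⟨x, hx⟩
      · rintro g _ ⟨x, hx, rfl⟩
        have h2 := AccPt.map (f := Φ g) hx (hc g).continuousAt (hinj g)
        rw [Filter.map_principal] at h2
        exact h2.mono (principal_mono.2 (hinv g))
    exact ⟨hKc, fun x hx => by rw [← hL] at hx; exact hx⟩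
  · apply circle_td hne
    have hF : K \ interior K = K := by
      apply hmin
      · exact Set.sdiff_subset
      · exact hKc.sdiff isOpen_interior
      · by_contra hcon
        rw [Set.not_nonempty_iff_eq_empty, Set.sdiff_eq_empty] at hcon
        have hop : IsOpen K := by
          have : interior K = K := interior_subset.antisymm hcon
          rw [← this]; exact isOpen_interior
        exact hne (IsClopen.eq_univ ⟨hKc, hop⟩ hKn)
      · rintro g _ ⟨x, hx, rfl⟩
        refine ⟨hinv g ⟨x, hx.1, rfl⟩, fun h => hx.2 ?_⟩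
        refine interior_maximal ?_ (isOpen_interior.preimage (hc g)) h
        intro y hy
        have h3 : Φ g y ∈ K := interior_subset hy
        have h4 := hinv g⁻¹ ⟨_, h3, rfl⟩
        rwa [hl] at h4
    rw [Set.eq_empty_iff_forall_notMem]
    intro x hx
    have h5 : x ∈ K \ interior K := by rw [hF]; exact interior_subset hx
    exact h5.2 hx

end Pool.Agent.H320.Dp
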