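import Pool.Agent.H320.Dp.Pos

set_option autoImplicit false

namespace Pool.Agent.H320.Dp

open Pool.Agent.Helper320.Refl Pool.Agent.Helper320.NoMin
open Filter Topology

lemma R_neg (k : Fin 3) : SmS (-1) (R k) := by
  have hl : ∀ a : ℝ, SmS 1 (fun z : Circle => Circle.exp a * z) := fun a =>
    ⟨fun t => a + t, fun n => contDiff_const.add contDiff_id, fun t => by
      have : deriv (fun t : ℝ => a + t) t = 1 := by
        rw [deriv_const_add, deriv_id'']
      rw [this]; norm_num, fun t => (Circle.exp_add a t).symm⟩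
  have := ((hl (ang k)).comp r0_neg).comp (hl (-ang k))
  have e : (R k : Circle → Circle) =
      (((fun z => Circle.exp (ang k) * z) ∘ r0) ∘ (fun z => Circle.exp (-ang k) * z)) := by
    funext z
    simp only [Function.comp_apply, Circle.exp_neg]
    rfl
  rw [e]
  simpa using this

lemma RR_pos (i j : Fin 3) : SmS 1 (R i * R j : Equiv.Perm Circle) := by
  have := (R_neg i).comp (R_neg j)
  have e : ((R i * R j : Equiv.Perm Circle) : Circle → Circle) = (R i) ∘ (R j) := rfl
  rw [e]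
  simpa using this

/-- The orientation preserving group. -/
def Gp (c : Equiv.Perm Circle) : Subgroup (Equiv.Perm Circle) :=
  Subgroup.closure {c, R 0 * R 1, R 1 * R 2}

instance (c : Equiv.Perm Circle) : Group.FG (Gp c) := by
  unfold Gp
  have : Finite ({c, R 0 * R 1, R 1 * R 2} : Set (Equiv.Perm Circle)) :=
    (Set.toFinite _).to_subtype
  infer_instance

lemma c_mem_Gp (c : Equiv.Perm Circle) : c ∈ Gp c := Subgroup.subset_closure (by simp)

lemma R01 (c : Equiv.Perm Circle) : R 0 * R 1 ∈ Gp c := Subgroup.subset_closure (by simp)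

lemma R12 (c : Equiv.Perm Circle) : R 1 * R 2 ∈ Gp c := Subgroup.subset_closure (by simp)

lemma RR_self (i : Fin 3) : R i * R i = 1 := by
  ext z
  simp [R_R]

lemma RR_inv (i j : Fin 3) : (R i * R j)⁻¹ = R j * R i := by
  rw [mul_inv_rev, R_inv, R_inv]

lemma RR_mem (c : Equiv.Perm Circle) (i j : Fin 3) : R i * R j ∈ Gp c := by
  have h02 : R 0 * R 2 ∈ Gp c := by
    have := (Gp c).mul_mem (R01 c) (R12 c)
    have e : R 0 * R 1 * (R 1 * R 2) = R 0 * R 2 := by
      calc R 0 * R 1 * (R 1 * R 2) = R 0 * (R 1 * R 1) * R 2 := by group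
        _ = _ := by rw [RR_self, mul_one]
    rwa [e] at this
  have h10 : R 1 * R 0 ∈ Gp c := by rw [← RR_inv]; exact (Gp c).inv_mem (R01 c)
  have h21 : R 2 * R 1 ∈ Gp c := by rw [← RR_inv]; exact (Gp c).inv_mem (R12 c)
  have h20 : R 2 * R 0 ∈ Gp c := by rw [← RR_inv]; exact (Gp c).inv_mem h02
  have hs : ∀ i, R i * R i ∈ Gp c := fun i => by rw [RR_self]; exact (Gp c).one_mem
  fin_cases i <;> fin_cases j
  · exact hs 0
  · exact R01 c
  · exact h02
  · exact h10
  · exact hs 1
  · exact R12 c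
  · exact h20
  · exact h21
  · exact hs 2

lemma Gp_le (c : Equiv.Perm Circle) : Gp c ≤ Gr c := by
  unfold Gp
  rw [Subgroup.closure_le]
  intro x hx
  rcases hx with rfl | rfl | rfl
  · exact c_mem x
  · exact Wg_le c (Wg.mul_mem (R_mem_Wg 0) (R_mem_Wg 1))
  · exact Wg_le c (Wg.mul_mem (R_mem_Wg 1) (R_mem_Wg 2))

lemma pos_mem {c : Equiv.Perm Circle} (h1 : SmL c) (h2 : SmL (c⁻¹ : Equiv.Perm Circle))
    (hcV : ∀ z, z ∉ V → c z = z) {h : Equiv.Perm Circle} (hh : h ∈ Gp c) : SmS 1 h := by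
  have : SmS 1 h ∧ SmS 1 (h⁻¹ : Equiv.Perm Circle) := by
    unfold Gp at hh
    induction hh using Subgroup.closure_induction with
    | mem x hx =>
      rcases hx with rfl | rfl | rfl
      · exact ⟨pos_of_inv h1 h2 (fun z => by simp) hcV,
          pos_of_inv h2 h1 (fun z => by simp) fun z hz => cinv_fix hcV hz⟩
      · exact ⟨RR_pos 0 1, by rw [RR_inv]; exact RR_pos 1 0⟩
      · exact ⟨RR_pos 1 2, by rw [RR_inv]; exact RR_pos 2 1⟩
    | one => exact ⟨SmS_id, by rw [inv_one]; exact SmS_id⟩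
    | mul x y hx hy ihx ihy =>
      refine ⟨by simpa using ihx.1.comp ihy.1, ?_⟩
      rw [mul_inv_rev]
      simpa using ihy.2.comp ihx.2
    | inv x hx ih => exact ⟨ih.2, by rw [inv_inv]; exact ih.1⟩
  exact this.1

end Pool.Agent.H320.Dp
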