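import Pool.Agent.H320.Dp.Base

set_option autoImplicit false

namespace Pool.Agent.H320.Dp

open Pool.Agent.Helper320.Refl Pool.Agent.Helper320.NoMin
open Filter Topology

/-- A circle map with a smooth lift whose derivative has the sign of `s`. -/
def SmS (s : ℝ) (f : Circle → Circle) : Prop :=
  ∃ F : ℝ → ℝ, Sm F ∧ (∀ t, 0 < s * deriv F t) ∧ ∀ t, f (Circle.exp t) = Circle.exp (F t)

lemma sm_diff {F : ℝ → ℝ} (hF : Sm F) : Differentiable ℝ F := by
  have h1 : ContDiff ℝ 1 F := by simpa using hF 1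
  exact h1.differentiable (by norm_num)

lemma sm_cd {F : ℝ → ℝ} (hF : Sm F) : Continuous (deriv F) := by
  have h1 : ContDiff ℝ 1 F := by simpa using hF 1
  exact h1.continuous_deriv (by norm_num)

lemma SmS.comp {a b : ℝ} {f g : Circle → Circle} (hf : SmS a f) (hg : SmS b g) :
    SmS (a * b) (f ∘ g) := by
  obtain ⟨F, hF, hFp, hF2⟩ := hf
  obtain ⟨G, hG, hGp, hG2⟩ := hg
  refine ⟨F ∘ G, fun k => (hF k).comp (hG k), fun t => ?_, fun t => by simp [hG2, hF2]⟩
  rw [deriv_comp t (sm_diff hF _) (sm_diff hG _)]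
  have := mul_pos (hFp (G t)) (hGp t)
  calc (0:ℝ) < _ := this
    _ = _ := by ring

lemma SmS.toSmL {a : ℝ} {f : Circle → Circle} (hf : SmS a f) : SmL f := by
  obtain ⟨F, hF, -, hF2⟩ := hf
  exact ⟨F, hF, hF2⟩

lemma SmS_id : SmS 1 (id : Circle → Circle) :=
  ⟨id, fun _ => contDiff_id, fun t => by rw [deriv_id]; norm_num, fun _ => rfl⟩

/-- multiples of `2π` that are small vanish. -/
lemma const_near {F : ℝ → ℝ} (hF : Continuous F) {U : Set ℝ} (hU : U ∈ 𝓝 (0:ℝ))
    (h : ∀ t ∈ U, Circle.exp (F t) = Circle.exp t) : F =ᶠ[𝓝 0] fun t => t + F 0 := by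
  have hv : Continuous fun t => F t - t - F 0 := by fun_prop
  have h0 : (fun t => F t - t - F 0) 0 = 0 := by simp
  have hs : ∀ᶠ t in 𝓝 (0:ℝ), |F t - t - F 0| < 2 * Real.pi := by
    have h1 : Tendsto (fun t => |F t - t - F 0|) (𝓝 0) (𝓝 |F 0 - 0 - F 0|) :=
      (hv.abs).tendsto 0
    have h2 : |F 0 - 0 - F 0| < 2 * Real.pi := by
      have : F 0 - 0 - F 0 = 0 := by ring
      rw [this, abs_zero]; positivity
    exact h1.eventually (gt_mem_nhds h2)
  filter_upwards [hs, hU] with t ht htU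
  obtain ⟨m, hm⟩ := Circle.exp_eq_exp.1 (h t htU)
  obtain ⟨n, hn⟩ := Circle.exp_eq_exp.1 (h 0 (mem_of_mem_nhds hU))
  have e : F t - t - F 0 = ((m - n : ℤ) : ℝ) * (2 * Real.pi) := by
    push_cast
    rw [hm, hn]; ring
  rw [e, abs_mul, abs_of_pos (by positivity : (0:ℝ) < 2 * Real.pi)] at ht
  have h2 : |((m - n : ℤ) : ℝ)| < 1 := by
    have hp : (0:ℝ) < 2 * Real.pi := by positivity
    by_contra hcon
    push Not at hcon
    nlinarith
  have h3 : m - n = 0 := by
    have : |m - n| < 1 := by exact_mod_cast h2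
    exact Int.abs_lt_one_iff.1 this
  rw [h3] at e
  simp only [Int.cast_zero, zero_mul] at e
  linarith

lemma pos_of_inv {f g : Circle → Circle} (hf : SmL f) (hg : SmL g) (h : ∀ z, g (f z) = z)
    (hfix : ∀ z, z ∉ V → f z = z) : SmS 1 f := by
  obtain ⟨F, hF, hF2⟩ := hf
  obtain ⟨G, hG, hG2⟩ := hg
  refine ⟨F, hF, ?_, hF2⟩
  have hFc : Continuous F := (hF 0).continuous
  have hGc : Continuous G := (hG 0).continuous
  obtain ⟨m, hm⟩ := const_of_int (u := fun t => (G (F t) - t) / (2 * Real.pi)) (by fun_prop) (by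
    intro t
    have e : Circle.exp (G (F t)) = Circle.exp t := by rw [← hG2, ← hF2, h]
    obtain ⟨m, hm⟩ := Circle.exp_eq_exp.1 e
    refine ⟨m, ?_⟩
    rw [hm]
    have : (2 * Real.pi) ≠ 0 := by positivity
    field_simp
    ring)
  have hGF : ∀ t, G (F t) = t + m * (2 * Real.pi) := by
    intro t
    have := hm t
    rw [div_eq_iff (by positivity)] at this
    linarith
  have hne : ∀ t, deriv F t ≠ 0 := by
    intro t h0
    have h1 : deriv (G ∘ F) t = deriv G (F t) * deriv F t :=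
      deriv_comp t (sm_diff hG _) (sm_diff hF _)
    have h2 : (G ∘ F) = fun t => t + m * (2 * Real.pi) := funext hGF
    rw [h2, h0, mul_zero, deriv_add_const, deriv_id''] at h1
    norm_num at h1
  have h0 : deriv F 0 = 1 := by
    have hU : {t : ℝ | 0 < Real.cos t} ∈ 𝓝 (0:ℝ) :=
      (isOpen_lt continuous_const Real.continuous_cos).mem_nhds (by simp)
    have hev := const_near hFc hU (by
      intro t ht
      rw [← hF2, hfix]
      intro hV
      have hV' : ((Circle.exp t : Circle) : ℂ).re < -99/100 := hV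
      rw [exp_re] at hV'
      have : 0 < Real.cos t := ht
      linarith)
    rw [hev.deriv_eq, deriv_add_const, deriv_id'']
  intro t
  rw [one_mul]
  by_contra hcon
  push Not at hcon
  obtain ⟨s, hs⟩ := mem_range_of_exists_le_of_exists_ge (c := (0:ℝ)) (sm_cd hF) ⟨t, hcon⟩
    ⟨0, by rw [h0]; norm_num⟩
  exact hne s hs

lemma exp_im (t : ℝ) : ((Circle.exp t : Circle) : ℂ).im = Real.sin t := by
  rw [Circle.coe_exp, Complex.exp_ofReal_mul_I_im]

lemma r0_neg : SmS (-1) r0 := by
  obtain ⟨F, hF, hF2⟩ := r0_smooth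
  refine ⟨F, hF, ?_, hF2⟩
  have hFc : Continuous F := (hF 0).continuous
  have hp : (0:ℝ) < 2 * Real.pi := by positivity
  -- `F (F t) = t + const`
  obtain ⟨m, hm⟩ := const_of_int (u := fun t => (F (F t) - t) / (2 * Real.pi)) (by fun_prop) (by
    intro t
    have e : Circle.exp (F (F t)) = Circle.exp t := by rw [← hF2, ← hF2, r0_r0]
    obtain ⟨m, hm⟩ := Circle.exp_eq_exp.1 e
    refine ⟨m, ?_⟩
    rw [hm]
    field_simp
    ring)
  have hFF : ∀ t, F (F t) = t + m * (2 * Real.pi) := by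
    intro t
    have := hm t
    rw [div_eq_iff (by positivity)] at this
    linarith
  have hne : ∀ t, deriv F t ≠ 0 := by
    intro t h0
    have h1 : deriv (F ∘ F) t = deriv F (F t) * deriv F t :=
      deriv_comp t (sm_diff hF _) (sm_diff hF _)
    have h2 : (F ∘ F) = fun t => t + m * (2 * Real.pi) := funext hFF
    rw [h2, h0, mul_zero, deriv_add_const, deriv_id''] at h1
    norm_num at h1
  -- a point with negative derivative
  obtain ⟨s, hs⟩ : ∃ s, deriv F s ≤ 0 := by
    have him : ∀ t, (13/4 - 3 * Real.cos t) * Real.sin (F t) = 5/4 * Real.sin t := by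
      intro t
      have h := im_r0 (Circle.exp t)
      rw [hF2, exp_re, exp_im, exp_im] at h
      exact h
    have hre : (13/4 - 3 * Real.cos 0) * (Real.cos (F 0) - 2/3) = 5/4 * (2/3 - Real.cos 0) := by
      have h := re_r0 (Circle.exp 0)
      rw [hF2, exp_re, exp_re] at h
      exact h
    rw [Real.cos_zero] at hre
    have hc : Real.cos (F 0) = -1 := by linarith
    have hd := (sm_diff hF 0).hasDerivAt
    have h1 : HasDerivAt (fun t => (13/4 - 3 * Real.cos t) * Real.sin (F t))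
        ((3 * Real.sin 0) * Real.sin (F 0) + (13/4 - 3 * Real.cos 0) * (Real.cos (F 0) * deriv F 0)) 0 := by
      have ha : HasDerivAt (fun t => (13/4 - 3 * Real.cos t)) (3 * Real.sin 0) 0 := by
        have := ((Real.hasDerivAt_cos 0).const_mul (3:ℝ)).const_sub (13/4)
        have e : (3 * Real.sin 0 : ℝ) = -(3 * -Real.sin 0) := by ring
        rw [e]
        exact this
      exact ha.mul hd.sin
    have h2 : HasDerivAt (fun t => 5/4 * Real.sin t) (5/4 * Real.cos 0) 0 :=
      (Real.hasDerivAt_sin 0).const_mul (5/4)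
    rw [show (fun t => (13/4 - 3 * Real.cos t) * Real.sin (F t)) = fun t => 5/4 * Real.sin t from
      funext him] at h1
    have h3 := h1.unique h2
    rw [hc, Real.sin_zero, Real.cos_zero] at h3
    refine ⟨0, ?_⟩
    linarith
  intro t
  by_contra hcon
  push Not at hcon
  obtain ⟨s', hs'⟩ := mem_range_of_exists_le_of_exists_ge (c := (0:ℝ)) (sm_cd hF) ⟨s, hs⟩
    ⟨t, by linarith⟩
  exact hne s' hs'

end Pool.Agent.H320.Dp
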